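import Pool.Agent.Q259.CF.Fix

/-!
# Project CF, job D6: the map of the class groups is injective (helper259)

Adapted from `Pool/Agent/Q224/CJ/D6.lean` (helper224).
-/

set_option autoImplicit false

namespace Pool.Agent.Q259.CF

open Polynomial
open Pool.Agent.Q7.CF

theorem ne_bot_map {R S : Type} [CommRing R] [CommRing S] (f : R →+* S) (hf : Function.Injective f) {I : Ideal R}
    (hI : I ≠ ⊥) : I.map f ≠ ⊥ := by
  intro h
  rw [Ideal.map_eq_bot_iff_of_injective hf] at h
  exact hI h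

theorem d6 (hbsc : S_BSC) (hded : S_DED) : S_D6 := by
  intro p r _ _ L _ _ D hD M _ _ _ _ I I' hI hI' hsim
  obtain ⟨a, b, ha, hb, hab⟩ := hsim
  haveI : CharZero M := charZero_of_injective_algebraMap (algebraMap L M).injective
  have hDM : algebraMap L M D ≠ 0 := by
    rw [Ne, map_eq_zero_iff _ (algebraMap L M).injective]
    exact hD
  haveI := (hded p r M (algebraMap L M D) hDM).1
  set f := bc p r (algebraMap L M) D _ rfl with hf
  have hfinj : Function.Injective f := bc_inj _ _ _ _ hbsc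
  -- `b` may be taken from the ring over `L`
  obtain ⟨β, hβ⟩ := prod_fixed hbsc D b
  classical
  set c : BQ p r (algebraMap L M D) := ∏ τ ∈ (Finset.univ.erase (1 : M ≃ₐ[L] M)), ga p r D τ b with hc
  have hcb : c * b = f β := by
    rw [hβ, ← Finset.mul_prod_erase Finset.univ _ (Finset.mem_univ (1 : M ≃ₐ[L] M)), ga_one hbsc, mul_comm]
  have hga0 : ∀ (τ : M ≃ₐ[L] M) (x : BQ p r (algebraMap L M D)), x ≠ 0 → ga p r D τ x ≠ 0 := by
    intro τ x hx
    rwa [Ne, map_eq_zero_iff _ (ga_inj hbsc D τ)]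
  have hc0 : c ≠ 0 := by
    rw [hc, Finset.prod_ne_zero_iff]
    intro τ _
    exact hga0 τ b hb
  have hβ0 : β ≠ 0 := by
    rintro rfl
    rw [map_zero] at hcb
    exact mul_ne_zero hc0 hb hcb
  set a' := c * a with ha'
  have ha'0 : a' ≠ 0 := mul_ne_zero hc0 ha
  have h1 : Ideal.span {a'} * I.map f = (Ideal.span {β} * I').map f := by
    rw [Ideal.map_mul, Ideal.map_span, Set.image_singleton, ← hcb, ha', ← Ideal.span_singleton_mul_span_singleton,
      ← Ideal.span_singleton_mul_span_singleton, mul_assoc, hab, mul_assoc]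
  have hIf : I.map f ≠ ⊥ := ne_bot_map f hfinj hI
  have hstab : ∀ (τ : M ≃ₐ[L] M) (K : Ideal (BQ p r D)), (K.map f).map (ga p r D τ) = K.map f := by
    intro τ K
    rw [Ideal.map_map]
    congr 1
    apply RingHom.ext
    intro x
    exact ga_bc hbsc D τ x
  obtain ⟨m, a₀, hm, ha₀, hma⟩ := semi_fixed hbsc D a' ha'0 (by
    intro τ
    have h2 := congrArg (Ideal.map (ga p r D τ)) h1
    rw [Ideal.map_mul, hstab, hstab, Ideal.map_span, Set.image_singleton, ← h1] at h2
    have h3 := mul_right_cancel₀ hIf h2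
    rw [Ideal.span_singleton_eq_span_singleton] at h3
    obtain ⟨u, hu⟩ := h3.symm
    exact ⟨u, (u⁻¹ : (BQ p r (algebraMap L M D))ˣ), u.mul_inv, by rw [← hu, mul_comm]⟩)
  refine ⟨a₀, β, ha₀, hβ0, ?_⟩
  apply map_bc_inj hbsc (M := M) D
  rw [← hf, ← h1, Ideal.map_mul, Ideal.map_span, Set.image_singleton, hf, hma]
  congr 1
  rw [Ideal.span_singleton_eq_span_singleton]
  exact associated_unit_mul_left _ _ (al_isUnit _ m hm)

end Pool.Agent.Q259.CF
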