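import Pool.Agent.Q259.CF.Units

/-!
# Project CF: the action of the Galois group on the coordinate ring, fixed points and descent of ideals (helper259)

Adapted from `Pool/Agent/Q224/CJ/Fix.lean` (helper224).
-/

set_option autoImplicit false

namespace Pool.Agent.Q259.CF

open Polynomial
open Pool.Agent.Q7.CF

section co

variable {p r : ℕ} [Fact p.Prime] [Ok p r] {L : Type} [Field L]

/-- the coefficients with respect to the basis -/
noncomputable def cf (hbsc : S_BSC) (D : L) (b : BQ p r D) : Fin p → L[X] :=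
  ((hbsc p r L D).2.1 b).choose

theorem cf_spec (hbsc : S_BSC) (D : L) (b : BQ p r D) :
    b = ∑ i : Fin p, aeval (uu p r D) (cf hbsc D b i) * vb p r D i :=
  ((hbsc p r L D).2.1 b).choose_spec.1

theorem cf_eq (hbsc : S_BSC) (D : L) (b : BQ p r D) (f : Fin p → L[X])
    (h : b = ∑ i : Fin p, aeval (uu p r D) (f i) * vb p r D i) : cf hbsc D b = f :=
  (((hbsc p r L D).2.1 b).choose_spec.2 f h).symm

theorem cf_ext (hbsc : S_BSC) (D : L) (b b' : BQ p r D) (h : ∀ i j, (cf hbsc D b i).coeff j = (cf hbsc D b' i).coeff j) :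
    b = b' := by
  have h1 : cf hbsc D b = cf hbsc D b' := funext fun i => Polynomial.ext (h i)
  rw [cf_spec hbsc D b, cf_spec hbsc D b', h1]

theorem cf_zero (hbsc : S_BSC) (D : L) (i : Fin p) : cf hbsc D (0 : BQ p r D) i = 0 := by
  rw [cf_eq hbsc D 0 (fun _ => 0) (by simp)]

theorem cf_alg (hbsc : S_BSC) (D : L) (i : Fin p) (m : L) (b : BQ p r D) :
    cf hbsc D (algebraMap L (BQ p r D) m * b) i = C m * cf hbsc D b i := by
  rw [cf_eq hbsc D (algebraMap L (BQ p r D) m * b) (fun i => C m * cf hbsc D b i) (by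
    conv_lhs => rw [cf_spec hbsc D b]
    rw [Finset.mul_sum]
    refine Finset.sum_congr rfl fun i _ => ?_
    rw [map_mul, aeval_C, mul_assoc])]

theorem exists_cf (hbsc : S_BSC) (D : L) (b : BQ p r D) (hb : b ≠ 0) : ∃ i j, (cf hbsc D b i).coeff j ≠ 0 := by
  by_contra h
  push Not at h
  apply hb
  apply cf_ext hbsc
  intro i j
  rw [h, cf_zero, coeff_zero]

section bc

variable {M : Type} [Field M] (φ : L →+* M) (D : L) (D' : M) (h : φ D = D')

omit [Fact p.Prime] [Ok p r] in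
theorem bc_alg (a : L) : bc p r φ D D' h (algebraMap L (BQ p r D) a) = algebraMap M (BQ p r D') (φ a) :=
  Subtype.ext (bF_alg p φ D D' h a)

omit [Fact p.Prime] [Ok p r] in
theorem bc_uu : bc p r φ D D' h (uu p r D) = uu p r D' := by
  apply Subtype.ext
  rw [bc_val]
  change bF p φ D D' h (XF p D ^ p) = XF p D' ^ p
  rw [map_pow, bF_XF]

omit [Fact p.Prime] [Ok p r] in
theorem bc_vb (i : ℕ) : bc p r φ D D' h (vb p r D i) = vb p r D' i := by
  apply Subtype.ext
  rw [bc_val]
  change bF p φ D D' h (XF p D ^ i * YF p D ^ (r * i % p)) = XF p D' ^ i * YF p D' ^ (r * i % p)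
  rw [map_mul, map_pow, map_pow, bF_XF, bF_YF]

omit [Fact p.Prime] [Ok p r] in
theorem bc_aeval (g : L[X]) : bc p r φ D D' h (aeval (uu p r D) g) = aeval (uu p r D') (g.map φ) := by
  have h1 : (bc p r φ D D' h).comp ((aeval (uu p r D) : L[X] →ₐ[L] BQ p r D) : L[X] →+* BQ p r D) =
      ((aeval (uu p r D') : M[X] →ₐ[M] BQ p r D') : M[X] →+* BQ p r D').comp (mapRingHom φ) := by
    apply Polynomial.ringHom_ext
    · intro a
      simp only [RingHom.coe_comp, RingHom.coe_coe, Function.comp_apply, aeval_C, coe_mapRingHom, map_C]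
      exact bc_alg φ D D' h a
    · simp only [RingHom.coe_comp, RingHom.coe_coe, Function.comp_apply, aeval_X, coe_mapRingHom, map_X]
      exact bc_uu φ D D' h
  exact RingHom.congr_fun h1 g

omit [Fact p.Prime] [Ok p r] in
theorem bc_sum (f : Fin p → L[X]) : bc p r φ D D' h (∑ i : Fin p, aeval (uu p r D) (f i) * vb p r D i) =
    ∑ i : Fin p, aeval (uu p r D') ((f i).map φ) * vb p r D' i := by
  rw [map_sum]
  refine Finset.sum_congr rfl fun i _ => ?_
  rw [map_mul, bc_aeval, bc_vb]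

theorem cf_bc (hbsc : S_BSC) (i : Fin p) (b : BQ p r D) :
    cf hbsc D' (bc p r φ D D' h b) i = (cf hbsc D b i).map φ := by
  rw [cf_eq hbsc D' (bc p r φ D D' h b) (fun i => (cf hbsc D b i).map φ) (by
    conv_lhs => rw [cf_spec hbsc D b]
    exact bc_sum φ D D' h _)]

theorem bc_inj (hbsc : S_BSC) : Function.Injective (bc p r φ D D' h) := by
  intro a b hab
  apply cf_ext hbsc
  intro i j
  apply φ.injective
  rw [← coeff_map, ← coeff_map, ← cf_bc φ D D' h hbsc, ← cf_bc φ D D' h hbsc, hab]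

end bc

theorem al_isUnit (D a : L) (ha : a ≠ 0) : IsUnit (algebraMap L (BQ p r D) a) :=
  (IsUnit.mk0 a ha).map _

/-- ring homomorphisms which agree on the constants, on `u` and on the basis -/
theorem hom_ext (hbsc : S_BSC) {S : Type} [CommRing S] {D : L} {f g : BQ p r D →+* S}
    (h1 : ∀ a : L, f (algebraMap L _ a) = g (algebraMap L _ a)) (h2 : f (uu p r D) = g (uu p r D))
    (h3 : ∀ i, f (vb p r D i) = g (vb p r D i)) : f = g := by
  apply RingHom.ext
  intro b
  rw [cf_spec hbsc D b, map_sum, map_sum]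
  refine Finset.sum_congr rfl fun i _ => ?_
  rw [map_mul, map_mul, h3]
  congr 1
  have h4 : f.comp ((aeval (uu p r D) : L[X] →ₐ[L] BQ p r D) : L[X] →+* BQ p r D) =
      g.comp ((aeval (uu p r D) : L[X] →ₐ[L] BQ p r D) : L[X] →+* BQ p r D) := by
    apply Polynomial.ringHom_ext
    · intro a
      simp only [RingHom.coe_comp, RingHom.coe_coe, Function.comp_apply, aeval_C]
      exact h1 a
    · simp only [RingHom.coe_comp, RingHom.coe_coe, Function.comp_apply, aeval_X]
      exact h2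
  exact RingHom.congr_fun h4 _

end co

section ga

variable {p r : ℕ} [Fact p.Prime] [Ok p r] {L M : Type} [Field L] [Field M] [Algebra L M]

theorem ga_al (D : L) (τ : M ≃ₐ[L] M) (a : M) :
    ga p r D τ (algebraMap M (BQ p r (algebraMap L M D)) a) = algebraMap M (BQ p r (algebraMap L M D)) (τ a) :=
  bc_alg _ _ _ _ _

theorem ga_uu (D : L) (τ : M ≃ₐ[L] M) : ga p r D τ (uu p r (algebraMap L M D)) = uu p r (algebraMap L M D) :=
  bc_uu _ _ _ _

theorem ga_vb (D : L) (τ : M ≃ₐ[L] M) (i : ℕ) :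
    ga p r D τ (vb p r (algebraMap L M D) i) = vb p r (algebraMap L M D) i :=
  bc_vb _ _ _ _ _

theorem ga_bc (hbsc : S_BSC) (D : L) (τ : M ≃ₐ[L] M) (b : BQ p r D) :
    ga p r D τ (bc p r (algebraMap L M) D _ rfl b) = bc p r (algebraMap L M) D _ rfl b := by
  have h : (ga p r D τ).comp (bc p r (algebraMap L M) D _ rfl) = bc p r (algebraMap L M) D _ rfl := by
    apply hom_ext hbsc
    · intro a
      change ga p r D τ (bc p r (algebraMap L M) D _ rfl _) = _
      rw [bc_alg, ga_al, AlgEquiv.commutes]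
    · change ga p r D τ (bc p r (algebraMap L M) D _ rfl _) = _
      rw [bc_uu, ga_uu]
    · intro i
      change ga p r D τ (bc p r (algebraMap L M) D _ rfl _) = _
      rw [bc_vb, ga_vb]
  exact RingHom.congr_fun h b

theorem ga_mul (hbsc : S_BSC) (D : L) (τ₁ τ₂ : M ≃ₐ[L] M) (b : BQ p r (algebraMap L M D)) :
    ga p r D (τ₁ * τ₂) b = ga p r D τ₁ (ga p r D τ₂ b) := by
  have h : ga p r D (τ₁ * τ₂) = (ga p r D τ₁).comp (ga p r D τ₂) := by
    apply hom_ext hbsc
    · intro a
      change _ = ga p r D τ₁ (ga p r D τ₂ _)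
      rw [ga_al, ga_al, ga_al, AlgEquiv.mul_apply]
    · change _ = ga p r D τ₁ (ga p r D τ₂ _)
      rw [ga_uu, ga_uu, ga_uu]
    · intro i
      change _ = ga p r D τ₁ (ga p r D τ₂ _)
      rw [ga_vb, ga_vb, ga_vb]
  exact RingHom.congr_fun h b

theorem ga_one (hbsc : S_BSC) (D : L) (b : BQ p r (algebraMap L M D)) : ga p r D (1 : M ≃ₐ[L] M) b = b := by
  have h : ga p r D (1 : M ≃ₐ[L] M) = RingHom.id _ := by
    apply hom_ext hbsc
    · intro a
      rw [ga_al]
      rfl
    · rw [ga_uu]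
      rfl
    · intro i
      rw [ga_vb]
      rfl
  exact RingHom.congr_fun h b

theorem ga_inj (hbsc : S_BSC) (D : L) (τ : M ≃ₐ[L] M) : Function.Injective (ga p r D τ) := bc_inj _ _ _ _ hbsc

theorem cf_ga (hbsc : S_BSC) (D : L) (τ : M ≃ₐ[L] M) (i : Fin p) (j : ℕ) (b : BQ p r (algebraMap L M D)) :
    (cf hbsc (algebraMap L M D) (ga p r D τ b) i).coeff j = τ ((cf hbsc (algebraMap L M D) b i).coeff j) := by
  have h := congrArg (fun f => coeff f j)
    (cf_bc ((τ : M →ₐ[L] M) : M →+* M) (algebraMap L M D) (algebraMap L M D) (τ.commutes D) hbsc i b)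
  refine h.trans ?_
  rw [coeff_map]
  rfl

/-- the fixed points of the Galois group on the coordinate ring -/
theorem fixed_bc (hbsc : S_BSC) [FiniteDimensional L M] [IsGalois L M] (D : L) (b : BQ p r (algebraMap L M D))
    (h : ∀ τ : M ≃ₐ[L] M, ga p r D τ b = b) : ∃ b₀ : BQ p r D, bc p r (algebraMap L M) D _ rfl b₀ = b := by
  have h1 : ∀ i, ∃ g : L[X], g.map (algebraMap L M) = cf hbsc (algebraMap L M D) b i := by
    intro i
    have h3 : cf hbsc (algebraMap L M D) b i ∈ lifts (algebraMap L M) := by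
      rw [lifts_iff_coeff_lifts]
      intro j
      rw [IsGalois.mem_range_algebraMap_iff_fixed]
      intro τ
      rw [← cf_ga, h]
    rw [lifts_iff_set_range] at h3
    exact h3
  choose g hg using h1
  refine ⟨∑ i : Fin p, aeval (uu p r D) (g i) * vb p r D i, ?_⟩
  rw [bc_sum]
  conv_rhs => rw [cf_spec hbsc _ b]
  refine Finset.sum_congr rfl fun i _ => ?_
  rw [hg]

/-- sums over the Galois group are fixed -/
theorem sum_fixed (hbsc : S_BSC) [FiniteDimensional L M] [IsGalois L M] (D : L) (b : BQ p r (algebraMap L M D)) :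
    ∃ b₀ : BQ p r D, bc p r (algebraMap L M) D _ rfl b₀ = ∑ τ : M ≃ₐ[L] M, ga p r D τ b := by
  apply fixed_bc hbsc
  intro σ
  rw [map_sum]
  simp_rw [← ga_mul hbsc]
  exact Fintype.sum_equiv (Equiv.mulLeft σ) _ _ (fun τ => rfl)

/-- products over the Galois group are fixed -/
theorem prod_fixed (hbsc : S_BSC) [FiniteDimensional L M] [IsGalois L M] (D : L) (b : BQ p r (algebraMap L M D)) :
    ∃ b₀ : BQ p r D, bc p r (algebraMap L M) D _ rfl b₀ = ∏ τ : M ≃ₐ[L] M, ga p r D τ b := by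
  apply fixed_bc hbsc
  intro σ
  rw [map_prod]
  simp_rw [← ga_mul hbsc]
  exact Fintype.prod_equiv (Equiv.mulLeft σ) _ _ (fun τ => rfl)

/-- descent of ideals -/
theorem comap_bc (hbsc : S_BSC) [CharZero L] [FiniteDimensional L M] [IsGalois L M] (D : L) (K : Ideal (BQ p r D))
    (a : BQ p r D) (ha : bc p r (algebraMap L M) D _ rfl a ∈ K.map (bc p r (algebraMap L M) D _ rfl)) : a ∈ K := by
  have key : ∀ b ∈ K.map (bc p r (algebraMap L M) D _ rfl), ∀ c : BQ p r (algebraMap L M D),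
      ∃ k ∈ K, bc p r (algebraMap L M) D _ rfl k = ∑ τ : M ≃ₐ[L] M, ga p r D τ (c * b) := by
    intro b hb
    refine Submodule.span_induction ?_ ?_ ?_ ?_ hb
    · rintro x ⟨k, hk, rfl⟩ c
      obtain ⟨c₀, hc₀⟩ := sum_fixed hbsc D c
      refine ⟨c₀ * k, K.mul_mem_left _ hk, ?_⟩
      rw [map_mul, hc₀, Finset.sum_mul]
      refine Finset.sum_congr rfl fun τ _ => ?_
      rw [map_mul, ga_bc hbsc]
    · intro c
      refine ⟨0, K.zero_mem, ?_⟩
      simp
    · intro x y _ _ hx hy c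
      obtain ⟨k, hk, hk1⟩ := hx c
      obtain ⟨k', hk', hk1'⟩ := hy c
      refine ⟨k + k', K.add_mem hk hk', ?_⟩
      rw [map_add, hk1, hk1', ← Finset.sum_add_distrib]
      refine Finset.sum_congr rfl fun τ _ => ?_
      rw [mul_add, map_add]
    · intro d x _ hx c
      obtain ⟨k, hk, hk1⟩ := hx (c * d)
      refine ⟨k, hk, ?_⟩
      rw [hk1]
      refine Finset.sum_congr rfl fun τ _ => ?_
      rw [smul_eq_mul, mul_assoc]
  obtain ⟨k, hk, hk1⟩ := key _ ha 1
  have h1 : ∑ τ : M ≃ₐ[L] M, ga p r D τ (1 * bc p r (algebraMap L M) D _ rfl a) =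
      bc p r (algebraMap L M) D _ rfl ((Fintype.card (M ≃ₐ[L] M) : BQ p r D) * a) := by
    simp_rw [one_mul, ga_bc hbsc]
    rw [Finset.sum_const, map_mul, map_natCast, nsmul_eq_mul, Finset.card_univ]
  rw [h1] at hk1
  have h2 := bc_inj _ _ _ _ hbsc hk1
  set n := Fintype.card (M ≃ₐ[L] M) with hn
  have hn0 : (n : L) ≠ 0 := by
    rw [Ne, Nat.cast_eq_zero, hn]
    exact Fintype.card_ne_zero
  have h3 : a = algebraMap L (BQ p r D) (n : L)⁻¹ * k := by
    rw [h2, ← mul_assoc, ← map_natCast (algebraMap L (BQ p r D)), ← map_mul, inv_mul_cancel₀ hn0, map_one, one_mul]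
  rw [h3]
  exact K.mul_mem_left _ hk

theorem map_bc_inj (hbsc : S_BSC) [CharZero L] [FiniteDimensional L M] [IsGalois L M] (D : L) (K K' : Ideal (BQ p r D))
    (h : K.map (bc p r (algebraMap L M) D _ rfl) = K'.map (bc p r (algebraMap L M) D _ rfl)) : K = K' := by
  apply le_antisymm
  · intro a ha
    apply comap_bc hbsc (M := M) D K' a
    rw [← h]
    exact Ideal.mem_map_of_mem _ ha
  · intro a ha
    apply comap_bc hbsc (M := M) D K a
    rw [h]
    exact Ideal.mem_map_of_mem _ ha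

/-- an element whose ideal is fixed by the Galois group is, up to a constant, defined over `L` -/
theorem semi_fixed (hbsc : S_BSC) [CharZero M] [FiniteDimensional L M] [IsGalois L M] (D : L)
    (a : BQ p r (algebraMap L M D)) (ha : a ≠ 0)
    (h : ∀ τ : M ≃ₐ[L] M, ∃ u v : BQ p r (algebraMap L M D), u * v = 1 ∧ ga p r D τ a = u * a) :
    ∃ (m : M) (a₀ : BQ p r D), m ≠ 0 ∧ a₀ ≠ 0 ∧
      bc p r (algebraMap L M) D _ rfl a₀ = algebraMap M (BQ p r (algebraMap L M D)) m * a := by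
  obtain ⟨i, j, hc⟩ := exists_cf hbsc _ a ha
  set c := (cf hbsc (algebraMap L M D) a i).coeff j with hcdef
  have hfix : ∀ τ : M ≃ₐ[L] M, ga p r D τ (algebraMap M (BQ p r (algebraMap L M D)) c⁻¹ * a) =
      algebraMap M (BQ p r (algebraMap L M D)) c⁻¹ * a := by
    intro τ
    obtain ⟨u, v, huv, hu⟩ := h τ
    obtain ⟨m, hm, rfl⟩ := unit_const hbsc _ u v huv
    have h1 : (cf hbsc (algebraMap L M D) (ga p r D τ a) i).coeff j = m * c := by
      rw [hu, cf_alg, coeff_C_mul]
    rw [cf_ga, ← hcdef] at h1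
    rw [map_mul, ga_al, hu, map_inv₀, h1, ← mul_assoc, ← map_mul]
    congr 2
    field_simp
  obtain ⟨a₀, ha₀⟩ := fixed_bc hbsc D _ hfix
  refine ⟨c⁻¹, a₀, inv_ne_zero hc, ?_, ha₀⟩
  rintro rfl
  rw [map_zero] at ha₀
  have h1 := al_isUnit (p := p) (r := r) (algebraMap L M D) c⁻¹ (inv_ne_zero hc)
  exact ha ((h1.mul_right_eq_zero).1 ha₀.symm)

end ga

end Pool.Agent.Q259.CF
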