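import Pool.Agent.Q7.CF.Stm

/-!
# Project CF: the units of the coordinate ring `BQ` are the nonzero constants (helper259)

The expansion at the point at infinity: `X ↦ q⁻¹`, `Y ↦ - q⁻¹ (1 - D q^p)^(1/p)`.
-/

set_option autoImplicit false

namespace Pool.Agent.Q259.CF

open Polynomial
open Pool.Agent.Q7.CF

/-- a `p`-th root of `1 - D q^p` -/
theorem exists_root {L : Type} [Field L] [CharZero L] (p : ℕ) (hp : p ≠ 0) (D : L) :
    ∃ w : PowerSeries L, w ^ p = 1 - PowerSeries.C D * PowerSeries.X ^ p := by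
  let _ : Algebra ℚ L := DivisionRing.toRatAlgebra
  set b : PowerSeries L := PowerSeries.binomialSeries L (1 / (p : ℚ)) with hb
  have h1 : ∀ n : ℕ, b ^ n = PowerSeries.binomialSeries L ((n : ℚ) * (1 / (p : ℚ))) := by
    intro n
    induction n with
    | zero => simp
    | succ n ih =>
      rw [pow_succ, ih, hb, ← PowerSeries.binomialSeries_add]
      congr 1
      push_cast
      ring
  have h2 : b ^ p = 1 + PowerSeries.X := by
    rw [h1 p]
    have h3 : (p : ℚ) * (1 / (p : ℚ)) = ((1 : ℕ) : ℚ) := by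
      have : (p : ℚ) ≠ 0 := by exact_mod_cast hp
      field_simp
      norm_num
    rw [h3, PowerSeries.binomialSeries_nat, pow_one]
  set a : PowerSeries L := - (PowerSeries.C D * PowerSeries.X ^ p) with ha
  have hs : PowerSeries.HasSubst a := by
    apply PowerSeries.HasSubst.of_constantCoeff_zero'
    rw [ha, map_neg, map_mul, map_pow, PowerSeries.constantCoeff_X, zero_pow hp, mul_zero, neg_zero]
  refine ⟨PowerSeries.substAlgHom (R := L) hs b, ?_⟩
  rw [← map_pow, h2, map_add, map_one, PowerSeries.coe_substAlgHom, PowerSeries.subst_X hs, ha]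
  ring

/-- the order of a sum of series of different orders -/
theorem sum_order {L : Type} [Field L] {ι : Type} (s : Finset ι) (g : ι → LaurentSeries L)
    (hne : ∃ i ∈ s, g i ≠ 0)
    (hinj : ∀ i ∈ s, ∀ j ∈ s, g i ≠ 0 → g j ≠ 0 → (g i).order = (g j).order → i = j) :
    ∀ j ∈ s, g j ≠ 0 → (∑ i ∈ s, g i).order ≤ (g j).order ∧ (∑ i ∈ s, g i) ≠ 0 := by
  classical
  obtain ⟨i₀, hi₀, hg₀⟩ := hne
  obtain ⟨i, hi, hmin⟩ := Finset.exists_min_image (s.filter (fun i => g i ≠ 0)) (fun i => (g i).order)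
    ⟨i₀, Finset.mem_filter.2 ⟨hi₀, hg₀⟩⟩
  rw [Finset.mem_filter] at hi
  have hc : (∑ j ∈ s, g j).coeff (g i).order ≠ 0 := by
    rw [HahnSeries.coeff_sum, Finset.sum_eq_single_of_mem i hi.1]
    · exact fun h => hi.2 (HahnSeries.coeff_order_eq_zero.1 h)
    · intro j hj hji
      by_cases h0 : g j = 0
      · rw [h0, HahnSeries.coeff_zero]
      · apply HahnSeries.coeff_eq_zero_of_lt_order
        refine lt_of_le_of_ne (hmin j (Finset.mem_filter.2 ⟨hj, h0⟩)) ?_
        intro h
        exact hji (hinj j hj i hi.1 h0 hi.2 h.symm)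
  intro j hj h0
  refine ⟨le_trans (HahnSeries.order_le_of_coeff_ne_zero hc) (hmin j (Finset.mem_filter.2 ⟨hj, h0⟩)), ?_⟩
  intro h
  rw [h, HahnSeries.coeff_zero] at hc
  exact hc rfl


section

variable {p r : ℕ} [Fact p.Prime] {L : Type} [Field L]

/-- the expansion at infinity -/
noncomputable def inf (hodd : Odd p) (D : L) (w : PowerSeries L)
    (hw : w ^ p = 1 - PowerSeries.C D * PowerSeries.X ^ p) : RF p D →+* LaurentSeries L :=
  AdjoinRoot.lift (eval₂RingHom (HahnSeries.C : L →+* LaurentSeries L) (HahnSeries.single (-1) 1))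
    (-(HahnSeries.single (-1) 1 * HahnSeries.ofPowerSeries ℤ L w)) (by
      have hw' : HahnSeries.ofPowerSeries ℤ L w ^ p = 1 - HahnSeries.C D * HahnSeries.single 1 (1 : L) ^ p := by
        rw [← map_pow, hw, map_sub, map_mul, map_pow, map_one, HahnSeries.ofPowerSeries_X,
          HahnSeries.ofPowerSeries_C]
      rw [eval₂_fF, neg_pow, hodd.neg_one_pow, mul_pow, hw']
      simp only [coe_eval₂RingHom, eval₂_sub, eval₂_C, eval₂_pow, eval₂_X]
      have h1 : (HahnSeries.single (-1) (1 : L) : LaurentSeries L) ^ p * HahnSeries.single 1 (1 : L) ^ p = 1 := by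
        rw [← mul_pow, HahnSeries.single_mul_single]
        simp
      linear_combination (HahnSeries.C D) * h1)

variable (hodd : Odd p) (D : L) (w : PowerSeries L) (hw : w ^ p = 1 - PowerSeries.C D * PowerSeries.X ^ p)

theorem inf_alg (a : L) : inf hodd D w hw (algebraMap L (RF p D) a) = HahnSeries.C a := by
  change inf hodd D w hw (AdjoinRoot.of (fF p D) (C a)) = _
  unfold inf
  rw [AdjoinRoot.lift_of, coe_eval₂RingHom, eval₂_C]

theorem inf_X : inf hodd D w hw (XF p D) = HahnSeries.single (-1) 1 := by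
  unfold inf XF
  rw [AdjoinRoot.lift_of, coe_eval₂RingHom, eval₂_X]

theorem inf_Y : inf hodd D w hw (YF p D) = -(HahnSeries.single (-1) 1 * HahnSeries.ofPowerSeries ℤ L w) := by
  unfold inf YF
  exact AdjoinRoot.lift_root _

theorem order_pow' {x : LaurentSeries L} (hx : x ≠ 0) (n : ℕ) : (x ^ n).order = n * x.order := by
  induction n with
  | zero => simp
  | succ n ih =>
    rw [pow_succ, HahnSeries.order_mul (pow_ne_zero n hx) hx, ih]
    push_cast
    ring

theorem X_ne : inf hodd D w hw (XF p D) ≠ 0 := by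
  rw [inf_X]
  exact HahnSeries.single_ne_zero one_ne_zero

theorem order_X : (inf hodd D w hw (XF p D)).order = -1 := by
  rw [inf_X]
  exact HahnSeries.order_single one_ne_zero

include hw in
theorem w_const : PowerSeries.constantCoeff w ≠ 0 := by
  intro h
  have h1 := congrArg PowerSeries.constantCoeff hw
  have hp : p ≠ 0 := (Fact.out (p := p.Prime)).ne_zero
  rw [map_pow, h, map_sub, map_mul, map_pow, PowerSeries.constantCoeff_X, zero_pow hp, mul_zero, sub_zero,
    map_one] at h1
  exact zero_ne_one h1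

include hw in
theorem w_ne : (HahnSeries.ofPowerSeries ℤ L w) ≠ 0 := by
  intro h
  have h1 : w = 0 := HahnSeries.ofPowerSeries_injective (by rw [h, map_zero])
  exact w_const D w hw (by rw [h1, map_zero])

include hw in
theorem order_w : (HahnSeries.ofPowerSeries ℤ L w).order = 0 := by
  apply le_antisymm
  · apply HahnSeries.order_le_of_coeff_ne_zero
    have h := HahnSeries.ofPowerSeries_apply_coeff (Γ := ℤ) w 0
    rw [Nat.cast_zero] at h
    rw [h, PowerSeries.coeff_zero_eq_constantCoeff_apply]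
    exact w_const D w hw
  · by_contra hlt
    push Not at hlt
    have h1 : (HahnSeries.ofPowerSeries ℤ L w).coeff (HahnSeries.ofPowerSeries ℤ L w).order ≠ 0 := fun h =>
      w_ne D w hw (HahnSeries.coeff_order_eq_zero.1 h)
    apply h1
    rw [HahnSeries.ofPowerSeries_apply]
    apply HahnSeries.embDomain_of_notMem_range
    rintro ⟨n, hn⟩
    have h2 : (n : ℤ) = (HahnSeries.ofPowerSeries ℤ L w).order := hn
    omega

theorem Y_ne : inf hodd D w hw (YF p D) ≠ 0 := by
  rw [inf_Y]
  exact neg_ne_zero.2 (mul_ne_zero (HahnSeries.single_ne_zero one_ne_zero) (w_ne D w hw))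

theorem order_Y : (inf hodd D w hw (YF p D)).order = -1 := by
  rw [inf_Y, HahnSeries.order_neg, HahnSeries.order_mul (HahnSeries.single_ne_zero one_ne_zero) (w_ne D w hw),
    HahnSeries.order_single one_ne_zero, order_w D w hw, add_zero]

/-- the basis -/
noncomputable def vb (p r : ℕ) (D : L) (i : ℕ) : BQ p r D :=
  ⟨XF p D ^ i * YF p D ^ (r * i % p), mons_mem p r D (Nat.mod_modEq _ _)⟩

theorem order_vb (i k : ℕ) : (inf hodd D w hw (XF p D ^ p) ^ k *
    inf hodd D w hw (XF p D ^ i * YF p D ^ (r * i % p))).order = -((p * k + i + r * i % p : ℕ) : ℤ) := by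
  have hX := X_ne hodd D w hw
  have hY := Y_ne hodd D w hw
  rw [map_pow, map_mul, map_pow, map_pow, ← pow_mul,
    HahnSeries.order_mul (pow_ne_zero _ hX) (mul_ne_zero (pow_ne_zero _ hX) (pow_ne_zero _ hY)),
    HahnSeries.order_mul (pow_ne_zero _ hX) (pow_ne_zero _ hY), order_pow' hX, order_pow' hX, order_pow' hY,
    order_X, order_Y]
  push_cast
  ring

theorem term_ne (i k : ℕ) : (inf hodd D w hw (XF p D ^ p) ^ k *
    inf hodd D w hw (XF p D ^ i * YF p D ^ (r * i % p))) ≠ 0 := by
  have hX := X_ne hodd D w hw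
  have hY := Y_ne hodd D w hw
  rw [map_pow, map_mul, map_pow, map_pow]
  exact mul_ne_zero (pow_ne_zero _ (pow_ne_zero _ hX)) (mul_ne_zero (pow_ne_zero _ hX) (pow_ne_zero _ hY))

theorem order_C_mul {c : L} (hc : c ≠ 0) {x : LaurentSeries L} (hx : x ≠ 0) : (HahnSeries.C c * x).order = x.order := by
  have h : (HahnSeries.C c : LaurentSeries L) ≠ 0 := by
    intro h
    exact hc (HahnSeries.C_injective (by rw [h, map_zero]))
  rw [HahnSeries.order_mul h hx]
  have h2 : (HahnSeries.C c : LaurentSeries L).order = 0 := HahnSeries.order_C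
  rw [h2, zero_add]

/-- the expansion at infinity on `BQ` -/
noncomputable def psi (r : ℕ) : BQ p r D →+* LaurentSeries L :=
  (inf hodd D w hw).comp ((BQ p r D).val : BQ p r D →+* RF p D)

theorem psi_smul (c : L) (x : BQ p r D) : psi hodd D w hw r (c • x) = HahnSeries.C c * psi hodd D w hw r x := by
  rw [Algebra.smul_def, map_mul]
  congr 1
  exact inf_alg hodd D w hw c

theorem psi_sum (f : Fin p → L[X]) :
    psi hodd D w hw r (∑ i : Fin p, aeval (uu p r D) (f i) * vb p r D i) =
      ∑ x ∈ (Finset.univ : Finset (Fin p)).sigma (fun i => Finset.range ((f i).natDegree + 1)),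
        HahnSeries.C ((f x.1).coeff x.2) * (inf hodd D w hw (XF p D ^ p) ^ x.2 *
    inf hodd D w hw (XF p D ^ (x.1 : ℕ) * YF p D ^ (r * x.1 % p))) := by
  rw [map_sum, Finset.sum_sigma]
  refine Finset.sum_congr rfl fun i _ => ?_
  rw [map_mul, aeval_eq_sum_range, map_sum, Finset.sum_mul]
  refine Finset.sum_congr rfl fun k _ => ?_
  rw [psi_smul, map_pow, mul_assoc]
  rfl

theorem exps_inj [Ok p r] {i i' k k' : ℕ} (hi : i < p) (hi' : i' < p)
    (h : p * k + i + r * i % p = p * k' + i' + r * i' % p) : i = i' ∧ k = k' := by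
  have hp : p.Prime := Fact.out
  have h1 : (p * k + i + r * i % p) % p = (p * k' + i' + r * i' % p) % p := by rw [h]
  have h2 : ∀ a b : ℕ, (p * b + a + r * a % p) % p = ((r + 1) * a) % p := by
    intro a b
    rw [add_assoc, Nat.mul_add_mod, Nat.add_mod_mod]
    congr 1
    ring
  rw [h2, h2] at h1
  have hr := Ok.h1 (p := p) (r := r)
  have hr2 := Ok.h2 (p := p) (r := r)
  have hcop : Nat.Coprime p (r + 1) := by
    rw [hp.coprime_iff_not_dvd]
    exact Nat.not_dvd_of_pos_of_lt (by omega) (by omega)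
  have h3 : (r + 1) * i ≡ (r + 1) * i' [MOD p] := h1
  have h4 : i ≡ i' [MOD p] := Nat.ModEq.cancel_left_of_coprime hcop h3
  have h5 : i = i' := Nat.ModEq.eq_of_lt_of_lt h4 hi hi'
  subst h5
  refine ⟨rfl, ?_⟩
  have h6 : p * k = p * k' := by omega
  exact Nat.eq_of_mul_eq_mul_left hp.pos h6

theorem order_le [Ok p r] (f : Fin p → L[X]) (i : Fin p) (k : ℕ) (hk : (f i).coeff k ≠ 0) :
    (psi hodd D w hw r (∑ i : Fin p, aeval (uu p r D) (f i) * vb p r D i)).order ≤
      -((p * k + i + r * i % p : ℕ) : ℤ) ∧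
    psi hodd D w hw r (∑ i : Fin p, aeval (uu p r D) (f i) * vb p r D i) ≠ 0 := by
  rw [psi_sum]
  set g : (Σ _ : Fin p, ℕ) → LaurentSeries L := fun x => HahnSeries.C ((f x.1).coeff x.2) *
    (inf hodd D w hw (XF p D ^ p) ^ x.2 * inf hodd D w hw (XF p D ^ (x.1 : ℕ) * YF p D ^ (r * x.1 % p))) with hg
  have hg0 : ∀ x, g x ≠ 0 ↔ (f x.1).coeff x.2 ≠ 0 := by
    intro x
    rw [hg]
    constructor
    · intro h h0
      apply h
      change HahnSeries.C ((f x.1).coeff x.2) * _ = 0
      rw [h0, map_zero, zero_mul]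
    · intro h
      refine mul_ne_zero ?_ (term_ne hodd D w hw _ _)
      intro h0
      exact h (HahnSeries.C_injective (by rw [h0, map_zero]))
  have hgo : ∀ x, g x ≠ 0 → (g x).order = -((p * x.2 + x.1 + r * x.1 % p : ℕ) : ℤ) := by
    intro x hx
    rw [hg]
    change HahnSeries.order (HahnSeries.C ((f x.1).coeff x.2) * (inf hodd D w hw (XF p D ^ p) ^ x.2 *
      inf hodd D w hw (XF p D ^ (x.1 : ℕ) * YF p D ^ (r * x.1 % p)))) = _
    rw [order_C_mul ((hg0 x).1 hx) (term_ne hodd D w hw _ _), order_vb]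
  have hmem : (⟨i, k⟩ : Σ _ : Fin p, ℕ) ∈
      (Finset.univ : Finset (Fin p)).sigma (fun i => Finset.range ((f i).natDegree + 1)) := by
    rw [Finset.mem_sigma, Finset.mem_range]
    exact ⟨Finset.mem_univ _, Nat.lt_succ_of_le (le_natDegree_of_ne_zero hk)⟩
  have hgi : g ⟨i, k⟩ ≠ 0 := (hg0 _).2 hk
  have h1 := sum_order ((Finset.univ : Finset (Fin p)).sigma (fun i => Finset.range ((f i).natDegree + 1))) g
    ⟨⟨i, k⟩, hmem, hgi⟩ (by
      intro x _ y _ hx hy hxy
      rw [hgo x hx, hgo y hy, neg_inj, Nat.cast_inj] at hxy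
      obtain ⟨h2, h3⟩ := exps_inj (r := r) x.1.2 y.1.2 hxy
      exact Sigma.ext (Fin.ext h2) (heq_of_eq h3)) ⟨i, k⟩ hmem hgi
  rw [hgo _ hgi] at h1
  exact h1

end

/-- the units of the coordinate ring are the nonzero constants -/
theorem unit_const (hbsc : S_BSC) {p r : ℕ} [Fact p.Prime] [Ok p r] {L : Type} [Field L] [CharZero L] (D : L)
    (a b : BQ p r D) (hab : a * b = 1) : ∃ m : L, m ≠ 0 ∧ a = algebraMap L (BQ p r D) m := by
  have hp : p.Prime := Fact.out
  have hr := Ok.h1 (p := p) (r := r)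
  have hr2 := Ok.h2 (p := p) (r := r)
  have hodd : Odd p := hp.odd_of_ne_two (by omega)
  obtain ⟨w, hw⟩ := exists_root p hp.ne_zero D
  obtain ⟨f, hf, -⟩ := (hbsc p r L D).2.1 a
  obtain ⟨f', hf', -⟩ := (hbsc p r L D).2.1 b
  have h1 : psi hodd D w hw r a * psi hodd D w hw r b = 1 := by rw [← map_mul, hab, map_one]
  have ha0 : psi hodd D w hw r a ≠ 0 := left_ne_zero_of_mul_eq_one h1
  have hb0 : psi hodd D w hw r b ≠ 0 := right_ne_zero_of_mul_eq_one h1
  have h2 : (psi hodd D w hw r a).order + (psi hodd D w hw r b).order = 0 := by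
    rw [← HahnSeries.order_mul ha0 hb0, h1, HahnSeries.order_one]
  have hex : ∀ (c : BQ p r D) (f : Fin p → L[X]), c = ∑ i : Fin p, aeval (uu p r D) (f i) * vb p r D i →
      psi hodd D w hw r c ≠ 0 → (psi hodd D w hw r c).order ≤ 0 := by
    intro c f hc hc0
    have h3 : ∃ (i : Fin p) (k : ℕ), (f i).coeff k ≠ 0 := by
      by_contra h
      push Not at h
      apply hc0
      have h4 : ∀ i, f i = 0 := fun i => Polynomial.ext (by intro k; rw [h i k, coeff_zero])
      rw [hc]
      simp [h4]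
    obtain ⟨i, k, hik⟩ := h3
    have h4 := (order_le (r := r) hodd D w hw f i k hik).1
    rw [← hc] at h4
    omega
  have hfa : a = ∑ i : Fin p, aeval (uu p r D) (f i) * vb p r D i := hf
  have hfb : b = ∑ i : Fin p, aeval (uu p r D) (f' i) * vb p r D i := hf'
  have h3 := hex b f' hfb hb0
  have h4 : ∀ (i : Fin p) (k : ℕ), (f i).coeff k ≠ 0 → (i : ℕ) = 0 ∧ k = 0 := by
    intro i k hik
    have h5 := (order_le (r := r) hodd D w hw f i k hik).1
    rw [← hfa] at h5
    have h6 : p * k + i + r * i % p = 0 := by omega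
    have h7 : p * k = 0 := by omega
    refine ⟨by omega, ?_⟩
    rcases Nat.mul_eq_zero.1 h7 with h8 | h8
    · exact absurd h8 hp.ne_zero
    · exact h8
  set i0 : Fin p := ⟨0, hp.pos⟩ with hi0
  have h5 : ∀ i, f i = if i = i0 then C ((f i0).coeff 0) else 0 := by
    intro i
    ext k
    by_cases hi : i = i0
    · subst hi
      rw [if_pos rfl, coeff_C]
      split_ifs with hk
      · rw [hk]
      · by_contra h0
        exact hk (h4 _ k h0).2
    · rw [if_neg hi, coeff_zero]
      by_contra h0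
      exact hi (Fin.ext (h4 i k h0).1)
  have h6 : a = algebraMap L (BQ p r D) ((f i0).coeff 0) := by
    rw [hfa, Finset.sum_eq_single i0]
    · rw [h5 i0, if_pos rfl, aeval_C, coeff_C_zero]
      have h7 : vb p r D i0 = 1 := by
        apply Subtype.ext
        change XF p D ^ 0 * YF p D ^ (r * 0 % p) = 1
        rw [mul_zero, Nat.zero_mod, pow_zero, pow_zero, mul_one]
      rw [h7, mul_one]
    · intro i _ hi
      rw [h5 i, if_neg hi, map_zero, zero_mul]
    · intro h
      exact absurd (Finset.mem_univ _) h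
  refine ⟨(f i0).coeff 0, ?_, h6⟩
  intro h0
  apply ha0
  rw [h6, h0, map_zero, map_zero]

end Pool.Agent.Q259.CF
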